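import Pool.Agent.Helper1.AS.Arith

/-!
# The conjecture for tuples of high transcendence degree

Let `F ⊆ ℂ` be a countable field, for instance `ℚ`. For all `z ∈ ℂ^n`, no `z_i` a pole of `Γ`, outside of a
countable set some `Γ(z_i)` is transcendental over `F(z_1, …, z_n)`. In general, for `0 ≤ m ≤ n`, outside of a set
of dimension at most `m` the inequality

  `tr.deg_F F(z, Γ(z)) ≥ tr.deg_F F(z) + m + 1`

holds. The exceptional set is the union of sets `Z_J`, where `J` runs through the subsets of `{1, …, n}` with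
`m` elements, and `Z_J` contains only countably many points with given coordinates `z_j`, `j ∈ J`. For `F = ℚ` it
follows that the inequality `tr.deg_ℚ ℚ(z, Γ(z)) ≥ n` of the conjecture is true for all tuples `z` with
`tr.deg_ℚ ℚ(z) ≥ n - 1`, with at most countably many exceptions, and for all tuples `z` with
`tr.deg_ℚ ℚ(z) ≥ n - 1 - m` outside of the union of the `Z_J`.

Proof. Suppose that `Γ(z_i)` is a root of a polynomial `∑ a_ij(z) w^j`, with leading coefficient `a_i(z)`,
for all `i`. On the analytic set `Z ⊆ ℂ^{2n}` of all `(z, v)` where `v_i` is a root of the corresponding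
monic polynomial for `a_i w` and `v_i / Γ(z_i) = a_i(z)`, the entire function
`∏ v_i / Γ(z_i + M + 1) = ∏ a_i(z) / (z_i (z_i + 1) ⋯ (z_i + M))` tends to zero at infinity, if `M` is large.
By the maximum principle it vanishes at all points of `Z` which are not isolated; so the points with
`a_i(z) ≠ 0` for all `i` are isolated.
-/

set_option autoImplicit false

open Set Pool.Agent.Helper1.AS

namespace Pool.Agent.Results.MP_26ad15_nt.HighTranscendenceDegree

/-- The field `F(z_1, …, z_n)`. -/
noncomputable def fieldOfArguments (F : Type) [Field F] [Algebra F ℂ] {n : ℕ} (z : Fin n → ℂ) :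
    IntermediateField F ℂ :=
  IntermediateField.adjoin F (range z)

/-- The field `F(z_1, …, z_n, Γ(z_1), …, Γ(z_n))`. -/
noncomputable def fieldOfValues (F : Type) [Field F] [Algebra F ℂ] {n : ℕ} (z : Fin n → ℂ) :
    IntermediateField F ℂ :=
  IntermediateField.adjoin F (range z ∪ range fun i => Complex.Gamma (z i))

theorem dichotomy (F : Type) [Field F] [Algebra F ℂ] {n m : ℕ} (hm : m ≤ n) (z : Fin n → ℂ) :
    (∃ J : Finset (Fin n), J.card = m ∧ ∀ i, IsAlgebraic (IntermediateField.adjoin F
      (range z ∪ (fun j => Complex.Gamma (z j)) '' J)) (Complex.Gamma (z i))) ∨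
    Algebra.trdeg F (fieldOfArguments F z) + (m + 1 : ℕ) ≤ Algebra.trdeg F (fieldOfValues F z) := by
  classical
  set K := fieldOfArguments F z with hK
  set v : Fin n → ℂ := fun i => Complex.Gamma (z i) with hv
  -- a maximal independent set
  obtain ⟨J, hJ, hmax⟩ : ∃ J : Finset (Fin n), AlgebraicIndepOn K v (J : Set (Fin n)) ∧
      ∀ J' : Finset (Fin n), AlgebraicIndepOn K v (J' : Set (Fin n)) → J'.card ≤ J.card := by
    have h0 : AlgebraicIndepOn K v ((∅ : Finset (Fin n)) : Set (Fin n)) := by
      rw [Finset.coe_empty, AlgebraicIndepOn, algebraicIndependent_empty_type_iff]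
      exact FaithfulSMul.algebraMap_injective K ℂ
    obtain ⟨J, hJ, hmax⟩ := Finset.exists_max_image ((Finset.univ : Finset (Finset (Fin n))).filter
      (fun J : Finset (Fin n) => AlgebraicIndepOn K v (J : Set (Fin n)))) Finset.card ⟨∅, by simpa using h0⟩
    refine ⟨J, by simpa using hJ, fun J' hJ' => hmax J' (by simpa using hJ')⟩
  have halg : ∀ i, IsAlgebraic (Algebra.adjoin K (v '' (J : Set (Fin n)))) (v i) := by
    intro i
    by_cases hi : i ∈ J
    · exact isAlgebraic_algebraMap (⟨v i, Algebra.subset_adjoin ⟨i, hi, rfl⟩⟩ :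
        Algebra.adjoin K (v '' (J : Set (Fin n))))
    · by_contra htr
      have h1 : AlgebraicIndepOn K v (insert i (J : Set (Fin n))) :=
        (AlgebraicIndepOn.insert_iff (by simpa using hi)).2 ⟨hJ, htr⟩
      rw [← Finset.coe_insert] at h1
      have h2 := hmax _ h1
      rw [Finset.card_insert_of_notMem hi] at h2
      omega
  rcases le_or_gt J.card m with hcard | hcard
  · left
    obtain ⟨J', hJJ', hJ'⟩ := Finset.exists_superset_card_eq hcard (by simpa using hm)
    refine ⟨J', hJ', fun i => ?_⟩
    obtain ⟨p, hp0, hp⟩ := halg i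
    set M := IntermediateField.adjoin F (range z ∪ (fun j => Complex.Gamma (z j)) '' J') with hM
    have hKM : ∀ x ∈ K, x ∈ M := fun x hx =>
      IntermediateField.adjoin.mono F _ _ subset_union_left hx
    have hin : ∀ x ∈ Algebra.adjoin K (v '' (J : Set (Fin n))), x ∈ M := by
      intro x hx
      refine Algebra.adjoin_induction (p := fun x _ => x ∈ M) ?_ ?_ ?_ ?_ hx
      · rintro x ⟨j, hj, rfl⟩
        exact IntermediateField.subset_adjoin _ _ (Or.inr ⟨j, hJJ' hj, rfl⟩)
      · intro r
        exact hKM _ r.2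
      · intro x y _ _ hx hy; exact M.add_mem hx hy
      · intro x y _ _ hx hy; exact M.mul_mem hx hy
    let φ : Algebra.adjoin K (v '' (J : Set (Fin n))) →+* M :=
      { toFun := fun x => ⟨x.1, hin x.1 x.2⟩
        map_one' := rfl
        map_mul' := fun _ _ => rfl
        map_zero' := rfl
        map_add' := fun _ _ => rfl }
    have hφ : Function.Injective φ := fun x y h => Subtype.ext (congrArg (fun w : M => (w : ℂ)) h)
    refine ⟨p.map φ, (Polynomial.map_ne_zero_iff hφ).2 hp0, ?_⟩
    rw [Polynomial.aeval_def, Polynomial.eval₂_map]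
    rw [Polynomial.aeval_def] at hp
    exact hp
  · right
    set M := fieldOfValues F z with hM
    have hKM : K ≤ M := IntermediateField.adjoin.mono _ _ _ subset_union_left
    let _ : Algebra K M := (IntermediateField.inclusion hKM).toAlgebra
    have : IsScalarTower F K M := IsScalarTower.of_algebraMap_eq fun x => rfl
    have : IsScalarTower K M ℂ := IsScalarTower.of_algebraMap_eq fun x => rfl
    have hadd := _root_.trdeg_add_eq F K (A := M)
    rw [← hadd]
    have h1 : ((m + 1 : ℕ) : Cardinal) ≤ Algebra.trdeg K M := by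
      let w : {x // x ∈ (J : Set (Fin n))} → M := fun j =>
        ⟨v j.1, IntermediateField.subset_adjoin _ _ (Or.inr ⟨j.1, rfl⟩)⟩
      have h2 : AlgebraicIndependent K w := by
        apply AlgebraicIndependent.of_comp (IsScalarTower.toAlgHom K M ℂ)
        exact hJ
      have h3 := h2.cardinalMk_le_trdeg
      refine le_trans ?_ h3
      rw [Cardinal.mk_fintype]
      have h4 : m + 1 ≤ Fintype.card {x // x ∈ (J : Set (Fin n))} := by
        simp only [Finset.mem_coe, Fintype.card_coe]
        omega
      exact_mod_cast h4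
    gcongr

/-- **Theorem.** Let `F ⊆ ℂ` be a countable field and `m ≤ n`. There are sets `Z_J ⊆ ℂ^n`, `J ⊆ {1, …, n}`, such that
each `Z_J` contains only countably many points with given coordinates `z_j`, `j ∈ J`, and such that
`tr.deg_F F(z, Γ(z)) ≥ tr.deg_F F(z) + m + 1` for all `z ∈ ℂ^n`, no `z_i` a pole of `Γ`, outside of the union of the
`Z_J` where `J` has `m` elements. (For `m = 0` this is the countable set `Z_∅`.) -/
theorem result (F : Type) [Field F] [Algebra F ℂ] [Countable F] (n m : ℕ) (hm : m ≤ n) :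
    ∃ Z : Finset (Fin n) → Set (Fin n → ℂ),
      (∀ (J : Finset (Fin n)) (b : Fin n → ℂ), {z ∈ Z J | ∀ j ∈ J, z j = b j}.Countable) ∧
      ∀ z : Fin n → ℂ, (∀ i, ∀ k : ℕ, z i ≠ -k) → (∀ J, J.card = m → z ∉ Z J) →
        Algebra.trdeg F (fieldOfArguments F z) + (m + 1 : ℕ) ≤ Algebra.trdeg F (fieldOfValues F z) := by
  refine ⟨fun J => {z | (∀ i, ∀ k : ℕ, z i ≠ -k) ∧ ∀ i, IsAlgebraic (IntermediateField.adjoin F
    (range z ∪ (fun j => Complex.Gamma (z j)) '' J)) (Complex.Gamma (z i))}, fun J b => ?_,
    fun z hz h => ?_⟩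
  · refine (countable_fibres F n J b).mono ?_
    rintro z ⟨⟨h1, h2⟩, h3⟩
    exact ⟨h1, h3, h2⟩
  · rcases dichotomy F hm z with ⟨J, hJ, h1⟩ | h1
    · exact (h J hJ ⟨hz, h1⟩).elim
    · exact h1

end Pool.Agent.Results.MP_26ad15_nt.HighTranscendenceDegree
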