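import Pool.Agent.Helper1.AS.Functional

/-!
# At least `r` of the functions `Γ(f_1), …, Γ(f_n)` are algebraically independent over `ℂ(f_1, …, f_n)`

Let `f_1, …, f_n` be arbitrary holomorphic functions on a connected open subset `Ω` of a finite dimensional
complex vector space, and let `r` be the rank of the differential of `(f_1, …, f_n)` at some point. Then at
least `r` of the functions `Γ(f_1), …, Γ(f_n)` are algebraically independent over `ℂ(f_1, …, f_n)`. In particular

  `tr.deg_ℂ ℂ(f_1, …, f_n, Γ(f_1), …, Γ(f_n)) ≥ tr.deg_ℂ ℂ(f_1, …, f_n) + r`,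

and if the `f_i` are algebraically independent over `ℂ` this is the bound `n + r` of the theorem of Ax and
Schanuel, for all `n` and `r`.

Proof. Suppose that `Γ(z_i)` is a root of a polynomial `∑ a_ij(z) w^j`, with leading coefficient `a_i(z)`,
for all `i`. On the analytic set `Z ⊆ ℂ^{2n}` of all `(z, v)` where `v_i` is a root of the corresponding
monic polynomial for `a_i w` and `v_i / Γ(z_i) = a_i(z)`, the entire function
`∏ v_i / Γ(z_i + M + 1) = ∏ a_i(z) / (z_i (z_i + 1) ⋯ (z_i + M))` tends to zero at infinity, if `M` is large.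
By the maximum principle it vanishes at all points of `Z` which are not isolated. The maximum principle
for sets of common zeros of holomorphic functions of several variables is proved by elimination: the
projection of such a set along one coordinate, near an isolated point of the fibre, is such a set again. For
the general case one passes to a curve on which fewer than `r` of the functions are constant and the others
are not all constant.
-/

set_option autoImplicit false

open Set Pool.Agent.Helper1.AS

namespace Pool.Agent.Results.MP_26ad15_nt.TranscendentalOverTheFunctions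

/-- the rank of the differential of the map `(f_1, …, f_n)` at `x` -/
noncomputable def rankAt {E : Type} [NormedAddCommGroup E] [NormedSpace ℂ E] {n : ℕ}
    (f : Fin n → E → ℂ) (x : E) : ℕ :=
  Module.finrank ℂ (LinearMap.range (fderiv ℂ (fun y i => f i y) x).toLinearMap)

/-- **Theorem.** Let `f_1, …, f_n` be holomorphic on the connected open set `Ω`, `x₀ ∈ Ω` and `r` the rank of the
differential of `(f_1, …, f_n)` at `x₀`. There are `r` different indices `g(a)` such that the functions `Γ(f_{g(a)})` are
algebraically independent over `ℂ(f_1, …, f_n)`: a polynomial in them whose coefficients are polynomials in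
`f_1, …, f_n`, one of which is not identically zero, is not identically zero. In particular, if the functions
`f_{e(1)}, …, f_{e(d)}` are algebraically independent over `ℂ`, then these `d` functions and the `r` functions
`Γ(f_{g(a)})` are together algebraically independent over `ℂ`. -/
theorem result (E : Type) [NormedAddCommGroup E] [NormedSpace ℂ E] [FiniteDimensional ℂ E]
    (n : ℕ) (Ω : Set E) (f : Fin n → E → ℂ) (x₀ : E) (hΩ : IsOpen Ω) (hc : IsPreconnected Ω)
    (hf : ∀ i, AnalyticOnNhd ℂ (f i) Ω) (hx₀ : x₀ ∈ Ω) :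
    ∃ g : Fin (rankAt f x₀) → Fin n, Function.Injective g ∧
      (∀ P : MvPolynomial (Fin (rankAt f x₀)) (MvPolynomial (Fin n) ℂ),
        (∃ s, ∃ x ∈ Ω, MvPolynomial.eval (fun i => f i x) (P.coeff s) ≠ 0) →
        ∃ x ∈ Ω, (∀ a, ∀ m : ℕ, f (g a) x ≠ -m) ∧
          P.eval₂ (MvPolynomial.eval fun i => f i x) (fun a => Complex.Gamma (f (g a) x)) ≠ 0) ∧
      ∀ (d : ℕ) (e : Fin d → Fin n),
        (∀ Q : MvPolynomial (Fin d) ℂ, Q ≠ 0 →
          ∃ x ∈ Ω, MvPolynomial.eval (fun i => f (e i) x) Q ≠ 0) →
        ∀ P : MvPolynomial (Fin (rankAt f x₀) ⊕ Fin d) ℂ, P ≠ 0 →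
          ∃ x ∈ Ω, (∀ a, ∀ m : ℕ, f (g a) x ≠ -m) ∧
            MvPolynomial.eval (Sum.elim (fun a => Complex.Gamma (f (g a) x)) fun i => f (e i) x) P
              ≠ 0 := by
  classical
  have hd : ∀ i, DifferentiableAt ℂ (f i) x₀ := fun i => (hf i x₀ hx₀).differentiableAt
  obtain ⟨T, hT⟩ := Submodule.exists_isCompl
    (LinearMap.ker (fderiv ℂ (fun y i => f i y) x₀).toLinearMap)
  have hder : ∀ v i, fderiv ℂ (fun y i => f i y) x₀ v i = fderiv ℂ (f i) x₀ v := by
    intro v i
    rw [fderiv_pi hd]
    rfl
  have hinj : ∀ v ∈ T, (∀ i, fderiv ℂ (f i) x₀ v = 0) → v = 0 := by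
    intro v hv h0
    have h1 : v ∈ LinearMap.ker (fderiv ℂ (fun y i => f i y) x₀).toLinearMap := by
      rw [LinearMap.mem_ker]
      ext i
      exact (hder v i).trans (h0 i)
    exact Submodule.disjoint_def.1 hT.disjoint v h1 hv
  have hfr : rankAt f x₀ = Module.finrank ℂ T := by
    have h1 := LinearMap.finrank_range_add_finrank_ker (fderiv ℂ (fun y i => f i y) x₀).toLinearMap
    have h2 := Submodule.finrank_add_eq_of_isCompl hT
    rw [rankAt]
    omega
  obtain ⟨g, hg⟩ := functional hΩ hc hf hx₀ hinj (rankAt f x₀) hfr.le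
  refine ⟨g, ?_, hg, ?_⟩
  · intro a b hab
    by_contra hne
    obtain ⟨x, hx, hx1, hx2⟩ := hg (MvPolynomial.X a - MvPolynomial.X b)
      ⟨Finsupp.single a 1, x₀, hx₀, by
        rw [MvPolynomial.coeff_sub, MvPolynomial.coeff_X, MvPolynomial.coeff_X]
        have : Finsupp.single b 1 ≠ Finsupp.single a 1 := fun h =>
          hne (Finsupp.single_left_injective one_ne_zero h).symm
        simp [this]⟩
    apply hx2
    simp [ev, hab]
  · intro d e he P hP
    set φ : MvPolynomial (Fin (rankAt f x₀) ⊕ Fin d) ℂ →+*
        MvPolynomial (Fin (rankAt f x₀)) (MvPolynomial (Fin n) ℂ) :=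
      (MvPolynomial.map (MvPolynomial.rename e).toRingHom).comp
        (MvPolynomial.sumRingEquiv ℂ (Fin (rankAt f x₀)) (Fin d)).toRingHom with hφ
    have hlive : Live Ω f (φ P) := by
      have h1 : MvPolynomial.sumRingEquiv ℂ (Fin (rankAt f x₀)) (Fin d) P ≠ 0 := by
        simpa using hP
      obtain ⟨s, hs⟩ := MvPolynomial.ne_zero_iff.1 h1
      obtain ⟨x, hx, hx1⟩ := he _ hs
      refine ⟨s, x, hx, ?_⟩
      have h2 : MvPolynomial.coeff s (φ P) = MvPolynomial.rename e
          (MvPolynomial.coeff s (MvPolynomial.sumRingEquiv ℂ (Fin (rankAt f x₀)) (Fin d) P)) :=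
        MvPolynomial.coeff_map _ _ _
      rw [h2, MvPolynomial.eval_rename]
      exact hx1
    obtain ⟨x, hx, hx1, hx2⟩ := hg (φ P) hlive
    refine ⟨x, hx, hx1, ?_⟩
    have h3 : (MvPolynomial.eval₂Hom (MvPolynomial.eval fun i => f i x)
        (fun a => Complex.Gamma (f (g a) x))).comp φ =
        MvPolynomial.eval (Sum.elim (fun a => Complex.Gamma (f (g a) x)) fun i => f (e i) x) := by
      apply MvPolynomial.ringHom_ext
      · intro c
        simp [hφ]
      · rintro (a | i)
        · simp [hφ]
        · simp [hφ]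
    have h4 := RingHom.congr_fun h3 P
    rw [← h4]
    exact hx2

end Pool.Agent.Results.MP_26ad15_nt.TranscendentalOverTheFunctions
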